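import Pool.Agent.W495.FM.Bass

/-!
# Finiteness of the higher `K`-groups of abelian fourfolds over finite fields

An abelian variety over the field with `p ^ a` elements is modelled by `RedAV` (Honda, Tate): a
finite product of CM types `(E i, Φ i)` with Weil numbers `π i ∈ E i` that satisfy the formula of
Shimura and Taniyama; its cohomology of degree `n` consists of the alternating `n`-forms on the Tate
module `Ω ⊗ H_1`, on which the Frobenius endomorphism acts by `π`.

`IsSmall Y`: the dimension of `Y` is at most four; or `Y` is (over an algebraic closure) isogenous to
the product of a power of a simple abelian variety of dimension at most five and of a supersingular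
abelian variety; or `Y` is a product of abelian varieties of dimension at most three, with a condition
on the Galois closures of their CM fields. The Newton polygon is arbitrary.

Let `X` be a smooth projective variety of dimension `d` in the class generated by these abelian
varieties (by motivic direct summands of sums of twists, and two-out-of-three for closed subschemes
and their complements). Then `K_n(X)` is finitely generated for all `n ≥ d - 2`, and if `d ≤ 4` for
all `n ≥ d - 3`, and it is finite if moreover `n ≥ 1`. In particular the groups `K_n(X)`, `n ≥ 1`, of
all abelian fourfolds over finite fields are finite.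
-/

namespace Pool.Agent.Results.MP_e17fa799_al.GeneratedBySmallAbelian

open Pool.Agent.W495.TA Pool.Agent.W495.FM

/-- Bass' conjecture for `K_n(X)`, for smooth projective varieties `X` of dimension `d` generated by
small abelian varieties, `n ≥ d - 2`, or `n ≥ d - 3` if `d ≤ 4`; the groups are finite for `n ≥ 1`. -/
theorem result (p : ℕ) [Fact p.Prime] (ν : PadicAlgCl p ≃+* ℂ) (Ω : Type) [Field Ω]
    [IsAlgClosed Ω] [CharZero Ω] (V : Type) (T : Homology Ω V) (hT : IsHomology T)
    (L : EtaleMotivic V) (D : KData V) (P : V → ℕ → Prop) (hL : IsEtaleMotivic T L P)
    (hD : IsKTheory T L D P) (X : V) (d : ℕ) (hP : P X d)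
    (hX : Generated T (IsSmallAbelian p ν T) X) (n : ℕ)
    (hn : d ≤ n + 2 ∨ (d ≤ n + 3 ∧ d ≤ 4)) :
    AddGroup.FG (D.K X n) ∧ (0 < n → Finite (D.K X n)) :=
  ⟨k_fg hT hL hD hP (tb_small hT hX) hn, k_finite hT hL hD hP (tb_small hT hX) hn⟩

end Pool.Agent.Results.MP_e17fa799_al.GeneratedBySmallAbelian
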